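import Pool.Agent.P8H47.FP.Stm2

set_option autoImplicit false

/-! Package FAM of the project FP: enlarging the family by procyclic groups. -/

namespace Pool.Agent.P8H65.FP
open Pool.Agent.P8H47.FP
open scoped IntermediateField

variable {F K : Type} [Field F] [Field K] [Algebra F K]

lemma mem_Fx (H : Subgroup (K ≃ₐ[F] K)) (x : K) : x ∈ Fx H ↔ ∀ h ∈ H, h x = x := by
  unfold Fx
  rw [IntermediateField.mem_toSubfield, IntermediateField.mem_fixedField_iff]

/-- the sign -/
def sgn (K : Type) [Field K] (a : ZMod 2) : K := if a = 0 then 1 else -1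

lemma sgn_zero : sgn K 0 = 1 := by simp [sgn]

lemma sgn_one : sgn K 1 = -1 := by simp [sgn]

lemma sgn_add (a b : ZMod 2) : sgn K (a + b) = sgn K a * sgn K b := by
  have h : (1 + 1 : ZMod 2) = 0 := by decide
  have key : ∀ c : ZMod 2, c = 0 ∨ c = 1 := by decide
  rcases key a with rfl | rfl <;> rcases key b with rfl | rfl
  · rw [add_zero, sgn_zero, one_mul]
  · rw [zero_add, sgn_zero, one_mul]
  · rw [add_zero, sgn_zero, mul_one]
  · rw [h, sgn_zero, sgn_one]; ring

lemma sgn_sum {ι : Type} (J : Finset ι) (a : ι → ZMod 2) : ∏ k ∈ J, sgn K (a k) = sgn K (∑ k ∈ J, a k) := by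
  classical
  induction J using Finset.induction_on with
  | empty => simp [sgn]
  | insert j J hj ih => rw [Finset.prod_insert hj, Finset.sum_insert hj, sgn_add, ih]

lemma pm_of_sq (z y : K) (h : z ^ 2 = y ^ 2) : z = y ∨ z = -y := sq_eq_sq_iff_eq_or_eq_neg.1 h

/-- the closed subgroup generated by `σ` has the fixed field `{x | σ x = x}` -/
lemma mem_Fx_closure [IsGalois F K] (σ : K ≃ₐ[F] K) (x : K) :
    x ∈ Fx ((Subgroup.zpowers σ).topologicalClosure) ↔ σ x = x := by
  rw [mem_Fx]
  constructor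
  · intro h
    exact h σ (Subgroup.le_topologicalClosure _ (Subgroup.mem_zpowers σ))
  · intro h g hg
    have h1 : (Subgroup.zpowers σ).topologicalClosure ≤ (F⟮x⟯).fixingSubgroup := by
      apply Subgroup.topologicalClosure_minimal
      · rw [Subgroup.zpowers_le, IntermediateField.mem_fixingSubgroup_iff]
        intro y hy
        have h2 : F⟮x⟯ ≤ IntermediateField.fixedField (Subgroup.zpowers σ) := by
          rw [IntermediateField.adjoin_simple_le_iff, IntermediateField.mem_fixedField_iff]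
          intro f hf
          have h3 : Subgroup.zpowers σ ≤ MulAction.stabilizer (K ≃ₐ[F] K) x := by
            rw [Subgroup.zpowers_le, MulAction.mem_stabilizer_iff]
            exact h
          exact MulAction.mem_stabilizer_iff.1 (h3 hf)
        exact (IntermediateField.mem_fixedField_iff _ _).1 (h2 hy) σ (Subgroup.mem_zpowers σ)
      · exact InfiniteGalois.fixingSubgroup_isClosed F⟮x⟯
    have h2 := h1 hg
    rw [IntermediateField.mem_fixingSubgroup_iff] at h2
    exact h2 x (IntermediateField.mem_adjoin_simple_self F x)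

/-- the independent signs -/
lemma exists_sigma (d : ℕ) (t s : Fin d → K) (hs : ∀ j, s j ^ 2 = t j)
    (ht : ∀ j, t j ∈ Fx (⊤ : Subgroup (K ≃ₐ[F] K)) ∧ t j ≠ 0)
    (hind : ∀ J : Finset (Fin d), (∃ w ∈ Fx (⊤ : Subgroup (K ≃ₐ[F] K)), ∏ j ∈ J, t j = w ^ 2) → J = ∅) (j : Fin d) :
    ∃ σ : K ≃ₐ[F] K, σ (s j) = - s j ∧ ∀ k, k ≠ j → σ (s k) = s k := by
  classical
  have hg : ∀ (g : K ≃ₐ[F] K) (k : Fin d), g (s k) = s k ∨ g (s k) = - s k := by
    intro g k
    apply pm_of_sq
    rw [← map_pow, hs]
    exact (mem_Fx _ _).1 (ht k).1 g (Subgroup.mem_top g)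
  let χ : (K ≃ₐ[F] K) → (Fin d → ZMod 2) := fun g k => if g (s k) = s k then 0 else 1
  have hχ : ∀ g k, g (s k) = sgn K (χ g k) * s k := by
    intro g k
    by_cases h : g (s k) = s k
    · have : χ g k = 0 := by simp only [χ, if_pos h]
      rw [this, sgn_zero, one_mul, h]
    · have : χ g k = 1 := by simp only [χ, if_neg h]
      rw [this, sgn_one, (hg g k).resolve_left h]
      ring
  have h2 : ∀ k, s k ≠ 0 := by
    intro k h0
    apply (ht k).2
    rw [← hs k, h0]
    ring
  by_cases h20 : (2 : K) = 0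
  · -- in characteristic two `s k` is its own negative
    have hneg : ∀ x : K, -x = x := by
      intro x
      have : (2 : K) * x = 0 := by rw [h20, zero_mul]
      linear_combination -this
    refine ⟨1, ?_, fun k _ => rfl⟩
    rw [hneg]
    rfl
  have hinj : ∀ a b : ZMod 2, sgn K a = sgn K b → a = b := by
    have hne : (1 : K) ≠ -1 := by
      intro h
      apply h20
      linear_combination h
    have key : ∀ c : ZMod 2, c = 0 ∨ c = 1 := by decide
    intro a b hab
    rcases key a with rfl | rfl <;> rcases key b with rfl | rfl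
    · rfl
    · rw [sgn_zero, sgn_one] at hab; exact absurd hab hne
    · rw [sgn_zero, sgn_one] at hab; exact absurd hab.symm hne
    · rfl
  have hmul : ∀ g h : K ≃ₐ[F] K, χ (g * h) = χ g + χ h := by
    intro g h
    funext k
    apply hinj
    rw [Pi.add_apply, sgn_add]
    have e1 : (g * h) (s k) = g (h (s k)) := rfl
    have e2 := hχ (g * h) k
    rw [e1, hχ h k, map_mul, hχ g k] at e2
    have e3 : g (sgn K (χ h k)) = sgn K (χ h k) := by
      unfold sgn
      split_ifs
      · exact map_one g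
      · rw [map_neg, map_one]
    rw [e3] at e2
    have e4 : sgn K (χ (g * h) k) * s k = (sgn K (χ g k) * sgn K (χ h k)) * s k := by rw [← e2]; ring
    exact mul_right_cancel₀ (h2 k) e4
  have hone : χ 1 = 0 := by
    funext k
    simp [χ]
  -- the span of the range
  have htop : Submodule.span (ZMod 2) (Set.range χ) = ⊤ := by
    by_contra hne
    obtain ⟨f, hf0, hf⟩ := Submodule.exists_le_ker_of_lt_top _ (lt_top_iff_ne_top.2 hne)
    have hfχ : ∀ g, f (χ g) = 0 := fun g => hf (Submodule.subset_span ⟨g, rfl⟩)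
    have hfe : ∀ v : Fin d → ZMod 2, f v = ∑ k, v k * f (Pi.single k 1) := by
      intro v
      have e := f.pi_apply_eq_sum_univ v
      rw [e]
      apply Finset.sum_congr rfl
      intro k _
      rw [smul_eq_mul]
      congr 2
      funext l
      rw [Pi.single_apply]
      by_cases h : l = k
      · rw [if_pos h, if_pos h.symm]
      · rw [if_neg h, if_neg (fun h' => h h'.symm)]
    have key : ∀ c : ZMod 2, c = 0 ∨ c = 1 := by decide
    obtain ⟨J, hJ⟩ : ∃ J : Finset (Fin d), J = Finset.univ.filter (fun k => f (Pi.single k 1) = 1) := ⟨_, rfl⟩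
    have hfJ : ∀ v : Fin d → ZMod 2, f v = ∑ k ∈ J, v k := by
      intro v
      rw [hfe v, hJ, Finset.sum_filter]
      apply Finset.sum_congr rfl
      intro k _
      split_ifs with h
      · rw [h, mul_one]
      · rw [(key _).resolve_right h, mul_zero]
    have hJ0 : J = ∅ := by
      apply hind
      refine ⟨∏ k ∈ J, s k, ?_, ?_⟩
      · rw [mem_Fx]
        intro g _
        rw [map_prod, Finset.prod_congr rfl (fun k _ => hχ g k), Finset.prod_mul_distrib, sgn_sum, ← hfJ, hfχ, sgn_zero, one_mul]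
      · rw [← Finset.prod_pow]
        exact Finset.prod_congr rfl (fun k _ => (hs k).symm)
    apply hf0
    ext k
    simp only [LinearMap.coe_comp, Function.comp_apply, LinearMap.zero_apply, LinearMap.coe_single]
    rw [hfJ, hJ0, Finset.sum_empty]
  have hmem : (Pi.single j 1 : Fin d → ZMod 2) ∈ Submodule.span (ZMod 2) (Set.range χ) := by rw [htop]; trivial
  have hrange : ∀ v ∈ Submodule.span (ZMod 2) (Set.range χ), ∃ g, χ g = v := by
    intro v hv
    induction hv using Submodule.span_induction with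
    | mem x hx => exact hx
    | zero => exact ⟨1, hone⟩
    | add x y _ _ hx hy =>
      obtain ⟨g, rfl⟩ := hx
      obtain ⟨h, rfl⟩ := hy
      exact ⟨g * h, hmul g h⟩
    | smul a x _ hx =>
      have key : ∀ c : ZMod 2, c = 0 ∨ c = 1 := by decide
      obtain ⟨g, rfl⟩ := hx
      rcases key a with rfl | rfl
      · exact ⟨1, by rw [hone, zero_smul]⟩
      · exact ⟨g, by rw [one_smul]⟩
  obtain ⟨σ, hσ⟩ := hrange _ hmem
  refine ⟨σ, ?_, ?_⟩
  · rw [hχ σ j, hσ, Pi.single_eq_same, sgn_one]
    ring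
  · intro k hk
    rw [hχ σ k, hσ, Pi.single_eq_of_ne hk, sgn_zero, one_mul]

/-- **package FAM** -/
theorem fam : S_FAM := by
  intro F K _ _ _ _ h2 hsq ι H hLG d t ht hgen hind
  classical
  choose s hs using fun j => hsq (t j)
  have hs0 : ∀ j, s j ≠ 0 := by
    intro j h0
    apply (ht j).2.1
    rw [← hs j, h0]
    ring
  choose σ hσ1 hσ2 using exists_sigma (F := F) (K := K) d t s hs (fun j => ⟨(ht j).1, (ht j).2.1⟩) hind
  have hFx : ∀ (j : Fin d) (x : K), x ∈ Fx ((Subgroup.zpowers (σ j)).topologicalClosure) ↔ σ j x = x :=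
    fun j x => mem_Fx_closure (σ j) x
  have hsF : ∀ j k, k ≠ j → s k ∈ Fx ((Subgroup.zpowers (σ j)).topologicalClosure) := fun j k hk => (hFx j _).2 (hσ2 j k hk)
  have htop : ∀ (j : Fin d) (x : K), x ∈ Fx (⊤ : Subgroup (K ≃ₐ[F] K)) → x ∈ Fx ((Subgroup.zpowers (σ j)).topologicalClosure) := by
    intro j x hx
    rw [hFx]
    exact (mem_Fx _ _).1 hx (σ j) (Subgroup.mem_top _)
  -- classes of squares in the new fields
  have hcl : ∀ (j : Fin d) (y : K), y ∈ Fx ((Subgroup.zpowers (σ j)).topologicalClosure) →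
      (¬ ∃ w ∈ Fx ((Subgroup.zpowers (σ j)).topologicalClosure), y = w ^ 2) →
      ∃ w ∈ Fx ((Subgroup.zpowers (σ j)).topologicalClosure), y = t j * w ^ 2 := by
    intro j y hy hns
    obtain ⟨z, hz⟩ := hsq y
    have h3 : σ j z = z ∨ σ j z = - z := by
      apply pm_of_sq
      rw [← map_pow, hz]
      exact (hFx j y).1 hy
    rcases h3 with h3 | h3
    · exact absurd ⟨z, (hFx j z).2 h3, hz.symm⟩ hns
    · refine ⟨z * s j / t j, ?_, ?_⟩
      · rw [hFx, map_div₀, map_mul, h3, hσ1]
        have h4 : σ j (t j) = t j := (mem_Fx _ _).1 (ht j).1 (σ j) (Subgroup.mem_top _)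
        rw [h4]
        ring
      · have h4 := (ht j).2.1
        rw [div_pow, mul_pow, hs, hz]
        field_simp
  refine ⟨σ, fun j => ⟨s j, hs j, hσ1 j⟩, ⟨?_, ?_, ?_⟩, ?_⟩
  · rintro (i | j)
    · exact hLG.le i
    · exact fun x hx => htop j x hx
  · intro y hy
    obtain ⟨x₀, hx₀, hx₀0, hx₀w⟩ := hLG.sur (fun i => y (Sum.inl i)) (fun i => hy (Sum.inl i))
    obtain ⟨J, hJ⟩ : ∃ J : Finset (Fin d), J = Finset.univ.filter (fun j =>
      ¬ ∃ w ∈ Fx ((Subgroup.zpowers (σ j)).topologicalClosure), x₀ / y (Sum.inr j) = w ^ 2) := ⟨_, rfl⟩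
    have hprod0 : ∏ k ∈ J, t k ≠ 0 := Finset.prod_ne_zero_iff.2 fun k _ => (ht k).2.1
    have hx0 : x₀ * ∏ k ∈ J, t k ≠ 0 := mul_ne_zero hx₀0 hprod0
    refine ⟨x₀ * ∏ k ∈ J, t k, mul_mem hx₀ (prod_mem fun k _ => (ht k).1), hx0, ?_⟩
    rintro (i | j)
    · obtain ⟨w, hw, hw0, hxw⟩ := hx₀w i
      choose v hv1 hv2 using fun k => (ht k).2.2 i
      refine ⟨w * ∏ k ∈ J, v k, mul_mem hw (prod_mem fun k _ => hv1 k), ?_, ?_⟩
      · apply mul_ne_zero hw0
        apply Finset.prod_ne_zero_iff.2
        intro k _ h0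
        apply (ht k).2.1
        rw [hv2 k, h0]
        ring
      · have e : ∏ k ∈ J, t k = (∏ k ∈ J, v k) ^ 2 := by
          rw [← Finset.prod_pow]
          exact Finset.prod_congr rfl (fun k _ => hv2 k)
        rw [hxw, e]
        ring
    · have hyj := hy (Sum.inr j)
      have hyE : y (Sum.inr j) ∈ Fx ((Subgroup.zpowers (σ j)).topologicalClosure) := hyj.1
      have hy0 : y (Sum.inr j) ≠ 0 := hyj.2
      have hq : x₀ / y (Sum.inr j) ∈ Fx ((Subgroup.zpowers (σ j)).topologicalClosure) := div_mem (htop j _ hx₀) hyE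
      -- it is enough to find a square root of the quotient
      suffices hsuff : ∃ w ∈ Fx ((Subgroup.zpowers (σ j)).topologicalClosure), x₀ / y (Sum.inr j) * ∏ k ∈ J, t k = w ^ 2 by
        obtain ⟨w, hw, hxw⟩ := hsuff
        have e : x₀ * ∏ k ∈ J, t k = y (Sum.inr j) * w ^ 2 := by
          rw [← hxw]
          field_simp
        refine ⟨w, hw, ?_, e⟩
        rintro rfl
        apply hx0
        rw [e]
        ring
      by_cases hjJ : j ∈ J
      · have hns := hjJ
        rw [hJ, Finset.mem_filter] at hns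
        obtain ⟨w, hw, hxw⟩ := hcl j _ hq hns.2
        refine ⟨w * t j * ∏ k ∈ J.erase j, s k, ?_, ?_⟩
        · exact mul_mem (mul_mem hw (htop j _ (ht j).1)) (prod_mem fun k hk => hsF j k (Finset.ne_of_mem_erase hk))
        · rw [← Finset.mul_prod_erase J t hjJ, hxw]
          have e : ∏ k ∈ J.erase j, t k = (∏ k ∈ J.erase j, s k) ^ 2 := by
            rw [← Finset.prod_pow]
            exact Finset.prod_congr rfl (fun k _ => (hs k).symm)
          rw [e]
          ring
      · have hns : ∃ w ∈ Fx ((Subgroup.zpowers (σ j)).topologicalClosure), x₀ / y (Sum.inr j) = w ^ 2 := by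
          by_contra hcon
          apply hjJ
          rw [hJ, Finset.mem_filter]
          exact ⟨Finset.mem_univ j, hcon⟩
        obtain ⟨w, hw, hxw⟩ := hns
        refine ⟨w * ∏ k ∈ J, s k, ?_, ?_⟩
        · exact mul_mem hw (prod_mem fun k hk => hsF j k (fun h => hjJ (h ▸ hk)))
        · rw [hxw]
          have e : ∏ k ∈ J, t k = (∏ k ∈ J, s k) ^ 2 := by
            rw [← Finset.prod_pow]
            exact Finset.prod_congr rfl (fun k _ => (hs k).symm)
          rw [e]
          ring
  · intro x hx y hy hx0 hy0 hall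
    exact hLG.loc x hx y hy hx0 hy0 (fun i => hall (Sum.inl i))
  · intro x hx hx0 hall
    obtain ⟨J, w, hw, hxw⟩ := hgen x hx hx0 (fun i => hall (Sum.inl i))
    have hJ : J = ∅ := by
      rw [Finset.eq_empty_iff_forall_notMem]
      intro j hj
      obtain ⟨z, hz, hxz⟩ := hall (Sum.inr j)
      have hz' : σ j z = z := (hFx j z).1 hz
      have hp : (∏ k ∈ J, s k * 1) = ∏ k ∈ J, s k := by simp
      have e : z ^ 2 = ((∏ k ∈ J, s k) * w) ^ 2 := by
        rw [← hxz, hxw, mul_pow, ← Finset.prod_pow]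
        congr 1
        exact Finset.prod_congr rfl (fun k _ => (hs k).symm)
      have hσw : σ j w = w := (mem_Fx _ _).1 hw (σ j) (Subgroup.mem_top _)
      have hneg : σ j ((∏ k ∈ J, s k) * w) = - ((∏ k ∈ J, s k) * w) := by
        rw [map_mul, hσw, map_prod, ← Finset.mul_prod_erase J _ hj, ← Finset.mul_prod_erase J s hj, hσ1,
          Finset.prod_congr rfl (fun k hk => hσ2 j k (Finset.ne_of_mem_erase hk))]
        ring
      have hz0 : z = 0 := by
        have h4 : z = -z := by
          rcases pm_of_sq z _ e with h | h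
          · rw [← h] at hneg
            rw [← hneg, hz']
          · have h5 : (∏ k ∈ J, s k) * w = -z := by rw [h]; ring
            rw [h5, map_neg, hz', neg_neg] at hneg
            exact hneg.symm
        have h5 : (2 : K) * z = 0 := by linear_combination h4
        exact (mul_eq_zero.1 h5).resolve_left h2
      apply hx0
      rw [hxz, hz0]
      ring
    refine ⟨w, hw, ?_⟩
    rw [hxw, hJ]
    simp

end Pool.Agent.P8H65.FP
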